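import Pool.Agent.K7.H64.LS.Inst

/-!
# The polynomial `3 X ^ 2 + 3 X + 1` of the differences of consecutive cubes
-/

set_option autoImplicit false

namespace Pool.Agent.K7.H40.CB

open Polynomial

/-- the polynomial `(X + 1) ^ 3 - X ^ 3 = 3 X ^ 2 + 3 X + 1` -/
noncomputable def cuban : ℤ[X] := C 3 * X ^ 2 + C 3 * X + C 1

theorem cuban_natDegree : cuban.natDegree = 2 := by
  unfold cuban
  exact natDegree_quadratic (by norm_num)

theorem cuban_leadingCoeff : cuban.leadingCoeff = 3 := by
  unfold cuban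
  exact leadingCoeff_quadratic (by norm_num)

theorem cuban_eval (n : ℤ) : cuban.eval n = 3 * n ^ 2 + 3 * n + 1 := by
  unfold cuban
  simp

theorem cuban_primitive : cuban.IsPrimitive := by
  intro r hr
  have h0 := C_dvd_iff_dvd_coeff r cuban |>.1 hr 0
  have h1 : cuban.coeff 0 = 1 := by
    unfold cuban
    simp
  rw [h1] at h0
  exact isUnit_of_dvd_one h0

theorem cuban_irreducible : Irreducible cuban := by
  rw [IsPrimitive.Int.irreducible_iff_irreducible_map_cast cuban_primitive]
  have hm : cuban.map (Int.castRingHom ℚ) = C 3 * X ^ 2 + C 3 * X + C 1 := by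
    unfold cuban
    simp only [Polynomial.map_add, Polynomial.map_mul, Polynomial.map_pow, map_X, map_C]
    norm_num
  rw [hm]
  have hd : (C 3 * X ^ 2 + C 3 * X + C 1 : ℚ[X]).natDegree = 2 := natDegree_quadratic (by norm_num)
  rw [irreducible_iff_roots_eq_zero_of_degree_le_three (by rw [hd]) (by rw [hd]; norm_num)]
  rw [Multiset.eq_zero_iff_forall_notMem]
  intro x hx
  have hne : (C 3 * X ^ 2 + C 3 * X + C 1 : ℚ[X]) ≠ 0 := by
    intro h
    rw [h] at hd
    simp at hd
  rw [mem_roots hne, IsRoot.def] at hx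
  simp only [eval_add, eval_mul, eval_pow, eval_X, eval_C] at hx
  nlinarith [sq_nonneg (2 * x + 1)]

theorem cuban_not_dvd (p : ℕ) (hp : p.Prime) : ¬ (p : ℤ) ∣ cuban.eval ((0 : ℕ) : ℤ) := by
  rw [cuban_eval]
  norm_num
  intro h
  exact hp.one_lt.ne' (by exact_mod_cast Int.eq_one_of_dvd_one (by positivity) h)

end Pool.Agent.K7.H40.CB
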